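import Pool.Agent.helper5.SYM.SpecB

/-!
# Project sy (MP_45d809_mp), row FRD
-/

set_option autoImplicit false

namespace Pool.Agent.SYM
open Finset CT Polynomial

theorem FRD : FRD_stmt := by
  intro V A _ _ _ _ G θ R J K γ κ h
  have e0 : ∀ d : G.Dart, sd (θ 0) d = d := by
    intro d
    refine SimpleGraph.Dart.ext _ _ (Prod.ext ?_ ?_)
    · exact h.one _
    · exact h.one _
  have ea : ∀ (a b : A) (d : G.Dart), sd (θ (a + b)) d = sd (θ a) (sd (θ b) d) := by
    intro a b d
    refine SimpleGraph.Dart.ext _ _ (Prod.ext ?_ ?_)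
    · exact h.hom _ _ _
    · exact h.hom _ _ _
  have es : ∀ (a : A) (d : G.Dart), sd (θ a) d.symm = (sd (θ a) d).symm := fun a d => rfl
  have en : ∀ (a : A) (d : G.Dart), sd (θ (-a)) (sd (θ a) d) = d := by
    intro a d
    rw [← ea, neg_add_cancel, e0]
  have ep : ∀ (a : A) (d : G.Dart), sd (θ a) (sd (θ (-a)) d) = d := by
    intro a d
    rw [← ea, add_neg_cancel, e0]
  have eY : ∀ (a : A) (d : G.Dart), Yf θ d → Yf θ (sd (θ a) d) := by
    intro a d hd b hb
    refine hd b ?_
    rw [← ea, add_comm, ea] at hb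
    have := congrArg (sd (θ (-a))) hb
    rwa [en, en] at this
  refine ⟨?_, ?_, e0, ea, es, ?_, ?_, ?_, ?_, ?_⟩
  · intro d
    exact d.symm_symm
  · intro d
    exact d.symm_ne
  · intro a d
    refine ⟨fun hd => ?_, eY a d⟩
    have := eY (-a) _ hd
    rwa [en] at this
  · intro d
    have key : ∀ d : G.Dart, Yf θ d → Yf θ d.symm := by
      intro d hd a ha
      refine hd a ?_
      have := congrArg SimpleGraph.Dart.symm ha
      rw [es, SimpleGraph.Dart.symm_symm, SimpleGraph.Dart.symm_symm] at this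
      exact this
    refine ⟨fun hd => ?_, key d⟩
    have := key _ hd
    rwa [SimpleGraph.Dart.symm_symm] at this
  · intro x hx
    exact (h.fst x hx).2
  · intro d hd
    obtain ⟨r, hr, a, ha⟩ := h.cov d hd
    have hf : (sd (θ (-a)) d).fst = r := by
      change θ (-a) d.fst = r
      rw [← ha, ← h.hom, neg_add_cancel, h.one]
    have hY : Yf θ (sd (θ (-a)) d) := eY (-a) d hd
    rw [mem_union, mem_union] at hr
    rcases hr with (hr | hr) | hr
    · obtain ⟨i, hi⟩ := h.Rd r hr _ hf
      refine ⟨(r, i), ?_, a, ?_⟩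
      · unfold XX
        simp [hr]
      · change sd (θ a) (κ (r, i)) = d
        rw [← hi, ep]
    · have m0 : (r, (0 : Fin 4)) ∈ XX R J K := by
        unfold XX
        simp [hr]
      have m1 : (r, (1 : Fin 4)) ∈ XX R J K := by
        unfold XX
        simp [hr]
      rcases h.Jd r hr _ hf with hi | hi | hi | hi
      · refine ⟨(r, 0), m0, a, ?_⟩
        rw [← hi, ep]
      · refine ⟨(r, 0), m0, a + γ r, ?_⟩
        rw [ea, ← hi, ep]
      · refine ⟨(r, 1), m1, a, ?_⟩
        rw [← hi, ep]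
      · refine ⟨(r, 1), m1, a + γ r, ?_⟩
        rw [ea, ← hi, ep]
    · have m0 : (r, (0 : Fin 4)) ∈ XX R J K := by
        unfold XX
        simp [hr]
      obtain ⟨b, hb⟩ := h.Kd r hr _ hf hY
      refine ⟨(r, 0), m0, a + b, ?_⟩
      rw [ea, ← hb, ep]
  · intro x hx y hy a ha
    exact h.inj x hx y hy a ha

end Pool.Agent.SYM
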